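import Pool.Agent.T9h46.CR.Fin

/-!
# The filling area conjecture for surfaces which agree with the hemisphere outside a convex region

Let `H` be a closed hemisphere of the unit sphere and let `C ⊆ H` be a convex region of radius at
most `arcsin 0.947` (71.2 degrees): `C` is contained in a round disc of this radius with an arbitrary
centre.  Remove the interior of `C` from `H` and glue in a compact oriented Riemannian surface `M` of
ANY genus along the boundary curve of `C`.  If the surface `S = (H ∖ C) ∪ M` is nonshortcutting, i.e. if
antipodal points of the circle `∂H` have distance at least `π` in `S`, then the area of `M` is at least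
the area of `C`, and the area of `S` is at least `2π`.

Only paths of the following kind are used: a great circle arc in `H` outside the interior of `C`, a path
in `M`, and again a great circle arc in `H` outside the interior of `C`.  The region `C` may touch the
boundary circle `∂H` (then `M` contains a part of the boundary of `S`).

Proof: if `x`, `y` are boundary points of `C`, then the great semicircle of `H` through `x` and `y` joins
antipodal points `p`, `-p` of `∂H` and does not meet the interior of `C` outside the arc `xy`; so the
distance of `x` and `y` in `M` is at least their distance in the sphere, and regions of caps of radius at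
most `arcsin 0.947` are minimal fillings among the surfaces of all genera.

Coordinates: the centre of the round disc of radius `arcsin 0.947` is the third basis vector, and
`up X` is the point of the sphere with the orthogonal projection `X` to the plane of the first two
coordinates; the pole `N` of the hemisphere `H` is an arbitrary unit vector.
-/

set_option autoImplicit false

open MeasureTheory Metric Set InnerProductGeometry

namespace Pool.Agent.Results.MP_ecf18f_gt.ConvexReplacement

open Pool.Agent.H241R3.FV Pool.Agent.N526.CP Pool.Agent.T9h46.CR

/-- The image of the closed unit disc under `y ↦ up (F y)` is a convex region `C` of the closed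
hemisphere with the pole `N`, contained in the round disc of radius `arcsin 0.947` about the third basis
vector: `F` is a Lipschitz homeomorphism of the closed unit disc to the projection of `C`, which maps the
open disc to the interior and preserves the orientation; a linear combination of two points of `C` with
nonnegative coefficients is a multiple of a point of `C`. -/
structure ConvexDisc (N : E 3) (F : E 2 → E 2) : Prop where
  lip : ∃ L : NNReal, LipschitzOnWith L F (closedBall 0 1)
  inj : InjOn F (closedBall (0 : E 2) 1)
  interior_eq : interior (F '' closedBall (0 : E 2) 1) = F '' ball (0 : E 2) 1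
  orient : ∀ᵐ y ∂(volume.restrict (ball (0 : E 2) 1)), 0 ≤ (fderiv ℝ F y).det
  cap : ∀ y ∈ closedBall (0 : E 2) 1, ‖F y‖ ≤ 947 / 1000
  hemi : ∀ y ∈ closedBall (0 : E 2) 1, 0 ≤ inner ℝ N (up (F y))
  convex : ∀ x ∈ closedBall (0 : E 2) 1, ∀ y ∈ closedBall (0 : E 2) 1, ∀ a b : ℝ, 0 ≤ a → 0 ≤ b →
    a + b = 1 → ∃ z ∈ closedBall (0 : E 2) 1, ∃ t : ℝ, 0 < t ∧
      a • up (F x) + b • up (F y) = t • up (F z)

/-- The boundary point `S.bd x` of `M` is glued to the boundary point `up (F x)` of `C`, and the curves
which join antipodal points `p`, `-p` of the circle `∂H` and consist of a great circle arc from `p` to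
`up (F x)` without interior points of `C`, a curve in `M` from `S.bd x` to `S.bd y` and a great circle arc
from `up (F y)` to `-p` without interior points of `C` have length at least `π`. -/
def NoShortcut (N : E 3) (F : E 2 → E 2) {M : Type} [MetricSpace M] (S : OFill 2 M) : Prop :=
  ∀ p : E 3, ‖p‖ = 1 → inner ℝ N p = 0 → ∀ x y : Sph 2, Off F p (up (F x)) →
    Off F (-p) (up (F y)) →
      Real.pi ≤ angle p (up (F x)) + dist (S.bd x) (S.bd y) + angle (up (F y)) (-p)

/-- The convex region `C` of the sphere. -/
def region (F : E 2 → E 2) : Set (Sph 3) := lift (F '' closedBall (0 : E 2) 1)

/-- The closed hemisphere with the pole `N`. -/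
def hemisphere (N : E 3) : Set (Sph 3) := {q | 0 ≤ inner ℝ N (q : E 3)}

/-- The area of subsets of the unit sphere of `ℝ³`. -/
noncomputable def area (A : Set (Sph 3)) : ENNReal := (volume : Measure (E 3)).toSphere A

/-- Let `C` be a convex region, contained in a round disc of radius `arcsin 0.947`, of the closed
hemisphere `H` with the pole `N`.  Let `M` be a compact oriented Riemannian surface of any genus whose
boundary circle is identified with the boundary curve of `C`.  If the union `S` of `H ∖ C` and `M` has no
shortcuts between antipodal points of the circle `∂H`, then the area of `M` is at least the area of `C`,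
and the area of `S` is at least `2π`. -/
theorem result (N : E 3) (_hN : ‖N‖ = 1) (F : E 2 → E 2) (hF : ConvexDisc N F)
    (M : Type) [MetricSpace M] [CompactSpace M] (S : OFill 2 M) (hS : NoShortcut N F S) :
    area (region F) ≤ S.vol ∧
      ENNReal.ofReal (2 * Real.pi) ≤ area (hemisphere N \ region F) + S.vol := by
  have h : area (region F) ≤ S.vol :=
    area_le (N := N) S hF.lip hF.inj hF.interior_eq hF.orient hF.cap hF.hemi hF.convex hS
  exact ⟨h, total (N := N) h⟩

end Pool.Agent.Results.MP_ecf18f_gt.ConvexReplacement
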